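import Mathlib
import Pool.Agent.Helper669.Forcing

/-!
# Every forcing preserves winning strategies for II in the strong countable fan tightness game

The forcing relation is the one of `Pool.Agent.Helper669.Forcing`: a sentence of the forcing
language is represented by the set of the conditions which force it; `fnot`, `fand`, `fall` have
their usual forcing clauses and `fimp`, `fex` are defined from them classically; a name for a
subset of a ground model set `X` is a map `A : X → Set P`, and `meets (A y)` says that `y` belongs
to the named set.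

Let `s` be a winning strategy of II at `x` in the ground model. If `t` is a finite sequence of
legal moves of the ground model and `A` is a legal move in the extension, then there is a legal
move `B` of the ground model with `s(t, B) ∈ A`: otherwise the set `Y` of all points which are not
of the form `s(t, B)` would contain `A`, so it would be a legal move, but `s(t, Y) ∈ Y`. So in
the extension II can simulate a play of the ground model game. If the answers missed a
neighbourhood `U` of `x`, then a descending sequence of conditions, chosen in the ground model,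
deciding longer and longer initial segments of the simulated play, would give an infinite play of
the ground model game with all answers outside of `U`.
-/

set_option autoImplicit false
set_option linter.unusedSectionVars false

namespace Pool.Agent.Results.MP_07c8c2_lc.EveryForcing

open Pool.Agent.Helper669.Forcing

universe u v

/-! ### The game in the ground model -/

/-- The first `n` moves of player I, the last one of them is the head of the list. -/
def hist {α : Type v} (A : ℕ → α) : ℕ → List α
  | 0 => []
  | n + 1 => A n :: hist A n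

/-- Player II has a winning strategy in the strong countable fan tightness game at `x`: the
strategy assigns to each finite sequence of legal moves of I (sets with `x` in their closure; the
last move is the head of the list) a point of the last move, and in each run in which II follows
the strategy, `x` is in the closure of the set of the answers. -/
def IIWins {X : Type v} [TopologicalSpace X] (x : X) : Prop :=
  ∃ s : List (Set X) → X,
    (∀ (A : Set X) (l : List (Set X)), (∀ B ∈ A :: l, x ∈ closure B) → s (A :: l) ∈ A) ∧
    ∀ A : ℕ → Set X, (∀ n, x ∈ closure (A n)) → x ∈ closure {y | ∃ n, y = s (hist A (n + 1))}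

/-! ### The game in the generic extension -/

section

variable {P : Type u} [Preorder P] {X : Type v} [TopologicalSpace X]

/-- The set named by `O` is open in the topology on `X` generated by the ground model topology as a
base: each of its points lies in a ground model open set contained in it. -/
def IsOpenN (O : X → Set P) : Set P :=
  fall fun y : X => fimp (meets (O y))
    (fex fun U : {U : Set X // IsOpen U ∧ y ∈ U} => fall fun z : X => fall fun _ : z ∈ U.1 =>
      meets (O z))

/-- `x` is in the closure of the set of all `y` with `φ y`: each open set of the extension which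
contains `x` contains such a point. -/
def InClosure (x : X) (φ : X → Set P) : Set P :=
  fall fun O : X → Set P => fimp (fand (IsOpenN O) (meets (O x)))
    (fex fun y : X => fand (meets (O y)) (φ y))

/-- The set named by `A` is a legal move: `x` is in its closure. -/
def Legal (x : X) (A : X → Set P) : Set P := InClosure x fun y => meets (A y)

/-- All entries of the sequence named by `l` are legal moves. -/
def LegalSeq (x : X) (l : List (X → Set P)) : Set P :=
  fall fun A : X → Set P => fall fun _ : A ∈ l => Legal x A

/-- The sets named by `A` and `B` are equal. -/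
def SameSet (A B : X → Set P) : Set P :=
  fall fun y : X => fand (fimp (meets (A y)) (meets (B y))) (fimp (meets (B y)) (meets (A y)))

/-- The sequences named by `l` and `l'` are equal. -/
def SameSeq (l l' : List (X → Set P)) : Set P :=
  {p | List.Forall₂ (fun A B => p ∈ SameSet A B) l l'}

/-- The answer to the sequence named by `l` according to the strategy named by `σ` is `y`: the
pair belongs to the named set of pairs. -/
def Answer (σ : List (X → Set P) → X → Set P) (l : List (X → Set P)) (y : X) : Set P :=
  fex fun l' : List (X → Set P) => fand (meets (σ l' y)) (SameSeq l' l)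

/-- In the extension, `σ` names a winning strategy for player II at `x`: it assigns to each finite
sequence of legal moves of I exactly one point, which belongs to the last move, and for each
infinite sequence of legal moves of I, `x` is in the closure of the set of the answers. -/
def IsWinning (x : X) (σ : List (X → Set P) → X → Set P) : Set P :=
  fand
    (fall fun A : X → Set P => fall fun l : List (X → Set P) => fimp (LegalSeq x (A :: l))
      (fand (fex fun y : X => fand (Answer σ (A :: l) y) (meets (A y)))
        (fall fun y : X => fall fun y' : X =>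
          fimp (fand (Answer σ (A :: l) y) (Answer σ (A :: l) y')) (fground (y = y')))))
    (fall fun A : ℕ → X → Set P => fimp (fall fun n => Legal x (A n))
      (InClosure x fun y => fex fun n : ℕ => Answer σ (hist A (n + 1)) y))

/-- In the extension, player II has a winning strategy in the strong countable fan tightness game
at `x`, for the topology on `X` generated by the ground model topology. -/
def IIWinsN (P : Type u) [Preorder P] {X : Type v} [TopologicalSpace X] (x : X) : Set P :=
  fex fun σ : List (X → Set P) → X → Set P => IsWinning x σ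

end

/-! ### Basic facts -/

section

variable {P : Type u} [Preorder P] {X : Type v} [TopologicalSpace X]

theorem down_SameSet (A B : X → Set P) : Down (SameSet A B) :=
  down_fall fun _ => down_fand (down_fimp _ _) (down_fimp _ _)

theorem down_SameSeq (l l' : List (X → Set P)) : Down (SameSeq l l') := by
  intro p hp q hq
  exact List.Forall₂.imp (fun A B h => down_SameSet A B _ h _ hq) hp

theorem meets_of_dense {N : Set P} {p : P} (h : ∀ q ≤ p, ∃ r ≤ q, r ∈ meets N) : p ∈ meets N := by
  intro q hq
  obtain ⟨r, hr, h'⟩ := h q hq
  obtain ⟨r', hr', s, hs, hle⟩ := h' r le_rfl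
  exact ⟨r', hr'.trans hr, s, hs, hle⟩

theorem SameSet.iff {A B : X → Set P} {p : P} (h : p ∈ SameSet A B) (y : X) {q : P} (hq : q ≤ p) :
    q ∈ meets (A y) ↔ q ∈ meets (B y) := by
  constructor
  · intro hA
    refine meets_of_dense fun q' hq' => ?_
    exact mem_fimp.1 (h y).1 q' (hq'.trans hq) (down_meets _ _ hA _ hq')
  · intro hB
    refine meets_of_dense fun q' hq' => ?_
    exact mem_fimp.1 (h y).2 q' (hq'.trans hq) (down_meets _ _ hB _ hq')

theorem down_Legal (x : X) (A : X → Set P) : Down (Legal x A) :=
  down_fall fun _ => down_fimp _ _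

/-- A name of a ground model set. -/
def chk (U : Set X) : X → Set P := fun y => {_p | y ∈ U}

theorem meets_chk {U : Set X} {y : X} {p : P} : p ∈ meets (chk (P := P) U y) ↔ y ∈ U := by
  constructor
  · intro h
    obtain ⟨_, _, _, h', _⟩ := h p le_rfl
    exact h'
  · intro h
    exact meets_of_mem h

theorem isOpen_chk {U : Set X} (hU : IsOpen U) (p : P) : p ∈ IsOpenN (chk (P := P) U) := by
  intro y
  rw [mem_fimp]
  intro q _ hy
  refine ⟨q, le_rfl, mem_fex_of_mem ⟨U, hU, meets_chk.1 hy⟩ ?_ ?_⟩
  · exact down_fall fun _ => down_fall fun _ => down_meets _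
  · exact fun z hz => meets_chk.2 hz

/-- A legal move of the extension meets each ground model neighbourhood of `x`. -/
theorem Legal.exists {x : X} {φ : X → Set P} {p : P} (h : p ∈ InClosure x φ) {U : Set X}
    (hU : IsOpen U) (hx : x ∈ U) : ∃ q ≤ p, ∃ y ∈ U, q ∈ φ y := by
  obtain ⟨r, hr, h'⟩ := mem_fimp.1 (h (chk U)) p le_rfl ⟨isOpen_chk hU p, meets_chk.2 hx⟩
  obtain ⟨q, hq, y, hy, hy'⟩ := mem_fex.1 h' r le_rfl
  exact ⟨q, hq.trans hr, y, meets_chk.1 hy, hy'⟩

end

/-! ### The simulation -/

section

variable {P : Type u} [Preorder P] {X : Type v} [TopologicalSpace X] {x : X}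
  (s : List (Set X) → X) (w : X → X → Prop)

/-- The possible answers of `s` after the sequence `t`. -/
def Rg (x : X) (s : List (Set X) → X) (t : List (Set X)) : Set X :=
  {y | ∃ B : Set X, x ∈ closure B ∧ s (B :: t) = y}

open Classical in
/-- A legal move of the ground model which leads to the answer `y`. -/
noncomputable def Mv (x : X) (s : List (Set X) → X) (t : List (Set X)) (y : X) : Set X :=
  if h : ∃ B : Set X, x ∈ closure B ∧ s (B :: t) = y then h.choose else Set.univ

omit [Preorder P] in
theorem Mv_spec {t : List (Set X)} {y : X} (h : y ∈ Rg x s t) :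
    x ∈ closure (Mv x s t y) ∧ s (Mv x s t y :: t) = y := by
  have h' : ∃ B : Set X, x ∈ closure B ∧ s (B :: t) = y := h
  unfold Mv
  rw [dif_pos h']
  exact h'.choose_spec

/-- `y` is the least possible answer in the set named by `A`. -/
def Least (x : X) (A : X → Set P) (t : List (Set X)) (y : X) : Set P :=
  {p | y ∈ Rg x s t ∧ p ∈ meets (A y) ∧ ∀ y' ∈ Rg x s t, w y' y → p ∈ fnot (meets (A y'))}

/-- `t` is the sequence of the moves of the simulated play. -/
inductive Sim (x : X) (p : P) : List (X → Set P) → List (Set X) → Prop
  | nil : Sim x p [] []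
  | cons {A : X → Set P} {l : List (X → Set P)} {t : List (Set X)} {y : X} (h : Sim x p l t)
      (hy : p ∈ Least s w x A t y) : Sim x p (A :: l) (Mv x s t y :: t)

/-- The strategy of the extension. -/
def strat (x : X) : List (X → Set P) → X → Set P
  | [], _ => ∅
  | A :: l, y => {p | ∃ t, Sim s w x p l t ∧ p ∈ Least s w x A t y}

variable {s w}

theorem down_Least (A : X → Set P) (t : List (Set X)) (y : X) : Down (Least s w x A t y) :=
  fun _ hp _ hq => ⟨hp.1, down_meets _ _ hp.2.1 _ hq,
    fun y' h1 h2 => down_fnot _ _ (hp.2.2 y' h1 h2) _ hq⟩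

theorem Sim.down {p q : P} {l : List (X → Set P)} {t : List (Set X)} (h : Sim s w x p l t)
    (hq : q ≤ p) : Sim s w x q l t := by
  induction h with
  | nil => exact Sim.nil
  | cons _ hy ih => exact Sim.cons ih (down_Least _ _ _ _ hy _ hq)

theorem Least.unique [IsWellOrder X w] {A : X → Set P} {t : List (Set X)} {y y' : X} {p : P}
    (h : p ∈ Least s w x A t y) (h' : p ∈ Least s w x A t y') : y = y' := by
  rcases trichotomous_of w y y' with h1 | h1 | h1
  · exact absurd h.2.1 (h'.2.2 y h.1 h1 p le_rfl)
  · exact h1
  · exact absurd h'.2.1 (h.2.2 y' h'.1 h1 p le_rfl)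

theorem Sim.unique [IsWellOrder X w] {p : P} {l : List (X → Set P)} {t t' : List (Set X)}
    (h : Sim s w x p l t) (h' : Sim s w x p l t') : t = t' := by
  induction h generalizing t' with
  | nil => cases h'; rfl
  | cons h1 hy ih =>
    cases h' with
    | cons h2 hy' =>
      have e := ih h2
      subst e
      rw [Least.unique hy hy']

theorem Least.same {A B : X → Set P} {t : List (Set X)} {y : X} {p : P}
    (hAB : p ∈ SameSet A B) (h : p ∈ Least s w x A t y) : p ∈ Least s w x B t y :=
  ⟨h.1, (SameSet.iff hAB y le_rfl).1 h.2.1, fun y' h1 h2 q hq h3 =>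
    h.2.2 y' h1 h2 q hq ((SameSet.iff hAB y' hq).2 h3)⟩

theorem Sim.same {p : P} {l l' : List (X → Set P)} {t : List (Set X)} (h : Sim s w x p l t)
    (hl : p ∈ SameSeq l l') : Sim s w x p l' t := by
  induction h generalizing l' with
  | nil => cases hl; exact Sim.nil
  | cons h1 hy ih =>
    cases hl with
    | cons hAB hl' => exact Sim.cons (ih hl') (Least.same hAB hy)

theorem Sim.legal {p : P} {l : List (X → Set P)} {t : List (Set X)} (h : Sim s w x p l t) :
    ∀ B ∈ t, x ∈ closure B := by
  induction h with
  | nil => intro B hB; exact absurd hB (List.not_mem_nil)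
  | cons h1 hy ih =>
    intro B hB
    rcases List.mem_cons.1 hB with rfl | hB
    · exact (Mv_spec s hy.1).1
    · exact ih B hB

/-- There is a possible answer in each legal move. -/
theorem exists_least [IsWellOrder X w]
    (hs : ∀ (A : Set X) (l : List (Set X)), (∀ B ∈ A :: l, x ∈ closure B) → s (A :: l) ∈ A)
    {A : X → Set P} {t : List (Set X)} (ht : ∀ B ∈ t, x ∈ closure B) {p : P} (hA : p ∈ Legal x A) :
    ∃ q ≤ p, ∃ y, q ∈ Least s w x A t y := by
  have h1 : ∃ y ∈ Rg x s t, ∃ q ≤ p, q ∈ meets (A y) := by
    by_contra hcon
    push Not at hcon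
    have h2 : x ∈ closure (Rg x s t)ᶜ := by
      rw [mem_closure_iff]
      intro U hU hx
      obtain ⟨q, hq, y, hy, hy'⟩ := Legal.exists hA hU hx
      exact ⟨y, hy, fun h => hcon y h q hq hy'⟩
    have h3 : s ((Rg x s t)ᶜ :: t) ∈ (Rg x s t)ᶜ := by
      apply hs
      intro B hB
      rcases List.mem_cons.1 hB with rfl | hB
      · exact h2
      · exact ht B hB
    exact h3 ⟨_, h2, rfl⟩
  let S : Set X := {y | y ∈ Rg x s t ∧ ∃ q ≤ p, q ∈ meets (A y)}
  have hS : S.Nonempty := by
    obtain ⟨y, hy, hq⟩ := h1
    exact ⟨y, hy, hq⟩
  have wf : WellFounded w := IsWellFounded.wf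
  obtain ⟨hy, q, hq, hm⟩ := wf.min_mem S hS
  refine ⟨q, hq, wf.min S hS, hy, hm, fun y' hy' hlt r hr h4 => ?_⟩
  exact wf.not_lt_min S (x := y') ⟨hy', r, hr.trans hq, h4⟩ hlt

/-- The simulation exists. -/
theorem exists_sim [IsWellOrder X w]
    (hs : ∀ (A : Set X) (l : List (Set X)), (∀ B ∈ A :: l, x ∈ closure B) → s (A :: l) ∈ A)
    (l : List (X → Set P)) (p : P) (hl : p ∈ LegalSeq x l) : ∃ q ≤ p, ∃ t, Sim s w x q l t := by
  induction l with
  | nil => exact ⟨p, le_rfl, [], Sim.nil⟩
  | cons A l ih =>
    obtain ⟨q, hq, t, ht⟩ := ih (fun B hB => hl B (List.mem_cons_of_mem _ hB))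
    obtain ⟨r, hr, y, hy⟩ := exists_least (w := w) hs ht.legal
      (down_Legal x A _ (hl A (List.mem_cons_self)) _ hq)
    exact ⟨r, hr.trans hq, _, Sim.cons (ht.down hr) hy⟩

theorem down_strat (l : List (X → Set P)) (y : X) : Down (strat s w x l y) := by
  intro p hp q hq
  cases l with
  | nil => exact absurd hp (Set.notMem_empty _)
  | cons A l =>
    obtain ⟨t, ht, hy⟩ := hp
    exact ⟨t, ht.down hq, down_Least _ _ _ _ hy _ hq⟩

/-- What it means that a condition forces the answer to be `y`. -/
theorem answer_dense {l : List (X → Set P)} {y : X} {p : P} (h : p ∈ Answer (strat s w x) l y) :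
    ∃ q ≤ p, q ∈ strat s w x l y := by
  obtain ⟨q, hq, l', h1, h2⟩ := mem_fex.1 h p le_rfl
  obtain ⟨r, hr, h3⟩ := exists_of_meets (down_strat l' y) h1
  refine ⟨r, hr.trans hq, ?_⟩
  have h4 := down_SameSeq _ _ _ h2 _ hr
  cases l' with
  | nil => exact absurd h3 (Set.notMem_empty _)
  | cons A' l' =>
    cases l with
    | nil => cases h4
    | cons A l =>
      obtain ⟨t, ht, hy⟩ := h3
      cases h4 with
      | cons hAB hl => exact ⟨t, ht.same hl, Least.same hAB hy⟩

theorem sameSeq_refl (l : List (X → Set P)) (p : P) : p ∈ SameSeq l l := by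
  show List.Forall₂ (fun A B => p ∈ SameSet A B) l l
  induction l with
  | nil => exact List.Forall₂.nil
  | cons A l ih =>
    refine List.Forall₂.cons (fun y => ⟨?_, ?_⟩) ih
    · exact mem_fimp.2 fun q _ h => ⟨q, le_rfl, h⟩
    · exact mem_fimp.2 fun q _ h => ⟨q, le_rfl, h⟩

theorem answer_of_mem {l : List (X → Set P)} {y : X} {p : P} (h : p ∈ strat s w x l y) :
    p ∈ Answer (strat s w x) l y :=
  mem_fex_of_mem l (down_fand (down_meets _) (down_SameSeq _ _))
    ⟨meets_of_mem h, sameSeq_refl l p⟩

theorem down_Answer (σ : List (X → Set P) → X → Set P) (l : List (X → Set P)) (y : X) :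
    Down (Answer σ l y) := down_fex _

theorem isWinning [IsWellOrder X w]
    (hs : ∀ (A : Set X) (l : List (Set X)), (∀ B ∈ A :: l, x ∈ closure B) → s (A :: l) ∈ A)
    (hw : ∀ A : ℕ → Set X, (∀ n, x ∈ closure (A n)) →
      x ∈ closure {y | ∃ n, y = s (hist A (n + 1))}) (p : P) :
    p ∈ IsWinning x (strat (P := P) s w x) := by
  constructor
  · intro A l
    rw [mem_fimp]
    intro q _ hl
    refine ⟨q, le_rfl, ?_, ?_⟩
    · rw [mem_fex]
      intro q' hq'
      have hl' : q' ∈ LegalSeq x (A :: l) := fun B hB => down_Legal x B _ (hl B hB) _ hq'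
      obtain ⟨r, hr, t, ht⟩ := exists_sim (s := s) (w := w) hs l q'
        (fun B hB => hl' B (List.mem_cons_of_mem _ hB))
      obtain ⟨r', hr', y, hy⟩ := exists_least (w := w) hs ht.legal
        (down_Legal x A _ (hl' A (List.mem_cons_self)) _ hr)
      exact ⟨r', hr'.trans hr, y, answer_of_mem ⟨t, ht.down hr', hy⟩, hy.2.1⟩
    · intro y y'
      rw [mem_fimp]
      rintro q' _ ⟨h1, h2⟩
      obtain ⟨r, hr, t, ht, hy⟩ := answer_dense h1
      obtain ⟨r', hr', t', ht', hy'⟩ := answer_dense (down_Answer _ _ _ _ h2 _ hr)
      have e := Sim.unique (ht.down hr') ht'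
      subst e
      exact ⟨q', le_rfl, Least.unique (down_Least _ _ _ _ hy _ hr') hy'⟩
  · intro A
    rw [mem_fimp]
    intro q0 _ hA
    refine ⟨q0, le_rfl, fun O => ?_⟩
    rw [mem_fimp]
    rintro q1 hq1 ⟨hO, hx⟩
    refine ⟨q1, le_rfl, ?_⟩
    rw [mem_fex]
    intro q2 hq2
    -- a ground model neighbourhood
    obtain ⟨q3, hq3, h3⟩ := mem_fimp.1 (hO x) q2 hq2 (down_meets _ _ hx _ hq2)
    obtain ⟨q4, hq4, U, hU⟩ := mem_fex.1 h3 q3 le_rfl
    by_contra hcon
    push Not at hcon
    -- no condition below `q4` forces an answer in `U`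
    have hno : ∀ r ≤ q4, ∀ n, ∀ y ∈ U.1, r ∉ strat s w x (hist A (n + 1)) y := by
      intro r hr n y hy hr'
      refine hcon r (hr.trans (hq4.trans hq3)) y ⟨down_meets _ _ (hU y hy) _ hr, ?_⟩
      exact mem_fex_of_mem n (down_Answer _ _ _) (answer_of_mem hr')
    -- a descending sequence of conditions
    have hstep : ∀ n : ℕ, ∀ z : {z : P × List (Set X) // z.1 ≤ q4 ∧ Sim s w x z.1 (hist A n) z.2},
        ∃ z' : {z : P × List (Set X) // z.1 ≤ q4 ∧ Sim s w x z.1 (hist A (n + 1)) z.2},
          ∃ B : Set X, x ∈ closure B ∧ z'.1.2 = B :: z.1.2 ∧ s (B :: z.1.2) ∉ U.1 := by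
      rintro n ⟨⟨r, t⟩, hr, ht⟩
      have hle : r ≤ q0 := hr.trans (hq4.trans (hq3.trans (hq2.trans hq1)))
      obtain ⟨r', hr', y, hy⟩ := exists_least (w := w) hs ht.legal
        (down_Legal x (A n) _ (hA n) _ hle)
      refine ⟨⟨(r', Mv x s t y :: t), hr'.trans hr, Sim.cons (ht.down hr') hy⟩, Mv x s t y,
        (Mv_spec s hy.1).1, rfl, ?_⟩
      rw [(Mv_spec s hy.1).2]
      intro hyU
      exact hno r' (hr'.trans hr) n y hyU ⟨t, ht.down hr', hy⟩
    choose F B hB1 hB2 hB3 using hstep
    let z : (n : ℕ) → {z : P × List (Set X) // z.1 ≤ q4 ∧ Sim s w x z.1 (hist A n) z.2} :=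
      fun n => Nat.rec ⟨(q4, []), le_rfl, Sim.nil⟩ (fun n z => F n z) n
    have hz : ∀ n, (z n).1.2 = hist (fun n => B n (z n)) n := by
      intro n
      induction n with
      | zero => rfl
      | succ n ih =>
        show (F n (z n)).1.2 = _
        rw [hB2 n (z n), ih]
        rfl
    have hcl := hw (fun n => B n (z n)) (fun n => hB1 n (z n))
    rw [mem_closure_iff] at hcl
    obtain ⟨y, hyU, n, hn⟩ := hcl U.1 U.2.1 U.2.2
    have h5 := hB3 n (z n)
    rw [hz n] at h5
    rw [hn] at hyU
    exact h5 hyU

end

/-- Let `(X, τ)` be a topological space such that player II has a winning strategy in the strong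
countable fan tightness game at every point. Then every forcing notion forces that player II has a
winning strategy in this game at every point of `X` with the topology generated by `τ`. -/
theorem result (X : Type v) [TopologicalSpace X] (h : ∀ x : X, IIWins x)
    (P : Type u) [Preorder P] (p : P) : p ∈ fall fun x : X => IIWinsN P x := by
  intro x
  obtain ⟨s, hs, hw⟩ := h x
  exact mem_fex_of_mem (strat s WellOrderingRel x)
    (down_fand (down_fall fun _ => down_fall fun _ => down_fimp _ _)
      (down_fall fun _ => down_fimp _ _)) (isWinning hs hw p)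

end Pool.Agent.Results.MP_07c8c2_lc.EveryForcing
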